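import Pool.Agent.GrowthOR.Final

set_option autoImplicit false

/-!
# A one-relator group with transcendental growth series (MP_620157_al, Q1)

The group is `G = ⟨x, u | u x⁻¹ u x⁻⁵⟩` (with `y = u x⁻¹` it is `⟨x, y | y² = x⁴⟩`).  For the
generating set `{x, u}` of this presentation the growth series and the series of the ball sizes are
transcendental over `ℚ(z)`.
-/

namespace Pool.Agent.Results.MP_620157_al.TranscendentalGrowth

open FreeGroup (of)
open scoped PowerSeries LaurentSeries Polynomial RatFunc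

/-- The one-relator group `⟨x_1, …, x_k | r⟩`. -/
abbrev OneRelator {k : ℕ} (r : FreeGroup (Fin k)) : Type :=
  PresentedGroup ({r} : Set (FreeGroup (Fin k)))

/-- The element represented by a word: the product of its letters, where the letter `(i, true)`
is `x_i` and the letter `(i, false)` is `x_i⁻¹`. -/
def value {k : ℕ} (r : FreeGroup (Fin k)) (l : List (Fin k × Bool)) : OneRelator r :=
  (l.map fun a => if a.2 then (PresentedGroup.of a.1 : OneRelator r)
    else (PresentedGroup.of a.1 : OneRelator r)⁻¹).prod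

/-- The word length `|g|`: the least length of a word representing `g`. -/
noncomputable def wordLength {k : ℕ} (r : FreeGroup (Fin k)) (g : OneRelator r) : ℕ :=
  sInf {n | ∃ l : List (Fin k × Bool), l.length = n ∧ value r l = g}

/-- The growth function `σ(n) = #{g | |g| = n}`. -/
noncomputable def sphere {k : ℕ} (r : FreeGroup (Fin k)) (n : ℕ) : ℕ :=
  Nat.card {g : OneRelator r // wordLength r g = n}

/-- The ball sizes `#{g | |g| ≤ n}`. -/
noncomputable def ball {k : ℕ} (r : FreeGroup (Fin k)) (n : ℕ) : ℕ :=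
  Nat.card {g : OneRelator r // wordLength r g ≤ n}

/-- The growth series `Σ σ(n) zⁿ`. -/
noncomputable def growthSeries {k : ℕ} (r : FreeGroup (Fin k)) : ℚ⟦X⟧ :=
  PowerSeries.mk fun n => (sphere r n : ℚ)

/-- The series `Σ #{g | |g| ≤ n} zⁿ` of the ball sizes. -/
noncomputable def ballSeries {k : ℕ} (r : FreeGroup (Fin k)) : ℚ⟦X⟧ :=
  PowerSeries.mk fun n => (ball r n : ℚ)

/-- The relator `u x⁻¹ u x⁻⁵`, where `x` is the first and `u` the second generator. -/
def relator : FreeGroup (Fin 2) := of 1 * (of 0)⁻¹ * of 1 * ((of 0)⁻¹) ^ 5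

/-! ## Words and the free group -/

section General

variable {k : ℕ} (r : FreeGroup (Fin k))

theorem value_eq (l : List (Fin k × Bool)) :
    value r l = PresentedGroup.mk ({r} : Set (FreeGroup (Fin k))) (FreeGroup.mk l) := by
  induction l with
  | nil =>
    have h : FreeGroup.mk ([] : List (Fin k × Bool)) = 1 := rfl
    rw [h, map_one]
    rfl
  | cons a l ih =>
    have h : FreeGroup.mk (a :: l) = FreeGroup.mk [a] * FreeGroup.mk l := by
      rw [FreeGroup.mul_mk]; rfl
    rw [h, map_mul, ← ih]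
    unfold value
    rw [List.map_cons, List.prod_cons]
    congr 1
    obtain ⟨i, b⟩ := a
    cases b with
    | true => rfl
    | false =>
      have h2 : FreeGroup.mk [(i, false)] = (of i)⁻¹ := by
        rw [FreeGroup.of, FreeGroup.inv_mk]; rfl
      rw [h2, map_inv]
      rfl

theorem exists_value (g : OneRelator r) : ∃ l : List (Fin k × Bool), value r l = g := by
  obtain ⟨w, rfl⟩ := PresentedGroup.mk_surjective _ g
  refine ⟨w.toWord, ?_⟩
  rw [value_eq, FreeGroup.mk_toWord]

theorem wordLength_spec (g : OneRelator r) :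
    ∃ l : List (Fin k × Bool), l.length = wordLength r g ∧ value r l = g := by
  have h : {n | ∃ l : List (Fin k × Bool), l.length = n ∧ value r l = g}.Nonempty := by
    obtain ⟨l, hl⟩ := exists_value r g
    exact ⟨l.length, l, rfl, hl⟩
  exact Nat.sInf_mem h

theorem wordLength_le {l : List (Fin k × Bool)} {g : OneRelator r} (h : value r l = g) :
    wordLength r g ≤ l.length := Nat.sInf_le ⟨l, rfl, h⟩

theorem wordLength_le_toWord {w : FreeGroup (Fin k)} {g : OneRelator r}
    (h : PresentedGroup.mk ({r} : Set (FreeGroup (Fin k))) w = g) :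
    wordLength r g ≤ (FreeGroup.toWord w).length := by
  apply wordLength_le
  rw [value_eq, FreeGroup.mk_toWord, h]

theorem wordLength_spec' (g : OneRelator r) :
    ∃ w : FreeGroup (Fin k), PresentedGroup.mk ({r} : Set (FreeGroup (Fin k))) w = g ∧
      (FreeGroup.toWord w).length = wordLength r g := by
  obtain ⟨l, hl, hv⟩ := wordLength_spec r g
  refine ⟨FreeGroup.mk l, by rw [← value_eq, hv], ?_⟩
  apply le_antisymm
  · rw [← hl]
    exact FreeGroup.norm_mk_le
  · exact wordLength_le_toWord r (by rw [← value_eq, hv])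

/-- the description of the elements of length `n` used in the frozen statement -/
theorem wordLength_eq_iff (g : OneRelator r) (n : ℕ) :
    wordLength r g = n ↔ ∃ w : FreeGroup (Fin k),
      PresentedGroup.mk ({r} : Set (FreeGroup (Fin k))) w = g ∧
      (FreeGroup.toWord w).length = n ∧
      ∀ w' : FreeGroup (Fin k), PresentedGroup.mk ({r} : Set (FreeGroup (Fin k))) w' = g →
        n ≤ (FreeGroup.toWord w').length := by
  constructor
  · rintro rfl
    obtain ⟨w, h1, h2⟩ := wordLength_spec' r g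
    exact ⟨w, h1, h2, fun w' h => wordLength_le_toWord r h⟩
  · rintro ⟨w, h1, h2, h3⟩
    apply le_antisymm
    · rw [← h2]; exact wordLength_le_toWord r h1
    · obtain ⟨w', h4, h5⟩ := wordLength_spec' r g
      rw [← h5]; exact h3 w' h4

theorem finite_ball (n : ℕ) : Finite {g : OneRelator r // wordLength r g ≤ n} := by
  have hf : Finite {l : List (Fin k × Bool) // l.length ≤ n} :=
    (List.finite_length_le (Fin k × Bool) n).to_subtype
  refine Finite.of_surjective (α := {l : List (Fin k × Bool) // l.length ≤ n})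
    (fun l => if h : wordLength r (value r l.1) ≤ n then ⟨value r l.1, h⟩ else ⟨value r [],
      (wordLength_le r rfl).trans (Nat.zero_le _)⟩) ?_
  rintro ⟨g, hg⟩
  obtain ⟨l, hl, hv⟩ := wordLength_spec r g
  refine ⟨⟨l, by omega⟩, ?_⟩
  simp only
  rw [dif_pos (by rw [hv]; exact hg)]
  exact Subtype.ext hv

theorem ball_zero : ball r 0 = sphere r 0 := by
  unfold ball sphere
  apply Nat.card_congr
  exact Equiv.subtypeEquivRight fun g => by omega

theorem ball_succ (n : ℕ) : ball r (n + 1) = ball r n + sphere r (n + 1) := by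
  have h1 := finite_ball r (n + 1)
  have h2 := finite_ball r n
  have h3 : Finite {g : OneRelator r // wordLength r g = n + 1} :=
    Finite.of_injective (β := {g : OneRelator r // wordLength r g ≤ n + 1})
      (fun g => ⟨g.1, g.2.le⟩) (fun a b h => Subtype.ext (by simpa using h))
  unfold ball sphere
  rw [← Nat.card_sum]
  symm
  apply Nat.card_congr
  refine Equiv.ofBijective (Sum.elim (fun g => ⟨g.1, g.2.trans (Nat.le_succ n)⟩)
    (fun g => ⟨g.1, g.2.le⟩)) ⟨?_, ?_⟩
  · rintro (⟨a, ha⟩ | ⟨a, ha⟩) (⟨b, hb⟩ | ⟨b, hb⟩) h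
    · simp only [Sum.elim_inl, Subtype.mk.injEq] at h
      subst h; rfl
    · simp only [Sum.elim_inl, Sum.elim_inr, Subtype.mk.injEq] at h
      subst h; omega
    · simp only [Sum.elim_inl, Sum.elim_inr, Subtype.mk.injEq] at h
      subst h; omega
    · simp only [Sum.elim_inr, Subtype.mk.injEq] at h
      subst h; rfl
  · rintro ⟨g, hg⟩
    rcases Nat.lt_or_ge (wordLength r g) (n + 1) with h | h
    · exact ⟨Sum.inl ⟨g, by omega⟩, rfl⟩
    · exact ⟨Sum.inr ⟨g, by omega⟩, rfl⟩

/-- the ball series is the growth series divided by `1 - z` -/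
theorem one_sub_X_mul_ballSeries : (1 - PowerSeries.X) * ballSeries r = growthSeries r := by
  ext n
  rw [sub_mul, one_mul, map_sub]
  cases n with
  | zero =>
    rw [PowerSeries.coeff_zero_X_mul]
    simp only [ballSeries, growthSeries, PowerSeries.coeff_mk]
    rw [ball_zero]
    simp
  | succ n =>
    rw [PowerSeries.coeff_succ_X_mul]
    simp only [ballSeries, growthSeries, PowerSeries.coeff_mk]
    rw [ball_succ]
    push_cast
    ring

/-- if the ball series is algebraic, so is the growth series -/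
theorem growth_of_ball (h : IsAlgebraic (RatFunc ℚ) ((ballSeries r : ℚ⟦X⟧) : ℚ⸨X⸩)) :
    IsAlgebraic (RatFunc ℚ) ((growthSeries r : ℚ⟦X⟧) : ℚ⸨X⸩) := by
  rw [← one_sub_X_mul_ballSeries, map_mul]
  refine IsAlgebraic.mul ?_ h
  have h1 : (HahnSeries.ofPowerSeries ℤ ℚ) (1 - PowerSeries.X) =
      algebraMap (RatFunc ℚ) ℚ⸨X⸩ (1 - RatFunc.X) := by
    rw [map_sub, HahnSeries.ofPowerSeries_X, map_sub, RatFunc.coe_X, RingHom.map_one,
      RingHom.map_one]
  rw [h1]
  exact isAlgebraic_algebraMap _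

end General

/-- an algebraic power series satisfies a polynomial equation with coefficients in `ℚ[X]` -/
theorem exists_of_isAlgebraic (s : ℚ⟦X⟧) (h : IsAlgebraic (RatFunc ℚ) (s : ℚ⸨X⸩)) :
    ∃ P : ℚ[X][X], P ≠ 0 ∧ Polynomial.eval₂ (Polynomial.coeToPowerSeries.ringHom) s P = 0 := by
  rw [← IsFractionRing.isAlgebraic_iff ℚ[X] (RatFunc ℚ) ℚ⸨X⸩] at h
  obtain ⟨P, hP, h0⟩ := h
  refine ⟨P, hP, ?_⟩
  apply HahnSeries.ofPowerSeries_injective (Γ := ℤ) (R := ℚ)
  rw [map_zero, Polynomial.hom_eval₂, ← h0, Polynomial.aeval_def]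
  rfl

theorem sphere_eq (n : ℕ) : sphere relator n = GrowthOR.sph n := by
  unfold GrowthOR.sph
  rw [← GrowthOR.card_eq n]
  unfold sphere
  apply Nat.card_congr
  exact Equiv.subtypeEquivRight fun g => wordLength_eq_iff relator g n

theorem summable_of_FF {z : ℝ} (h0 : 0 < z) (hfin : GrowthOR.FF z ≠ ⊤) :
    Summable (fun n : ℕ => (sphere relator n : ℝ) * z ^ n) ∧
      ∑' n : ℕ, (sphere relator n : ℝ) * z ^ n = (GrowthOR.FF z).toReal := by
  obtain ⟨hs, ht⟩ := GrowthOR.hasVal_FF z h0 hfin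
  have h3 : (fun n : ℕ => ((PowerSeries.coeff n
      (PowerSeries.mk fun k => ((GrowthOR.sph k : ℕ) : ℚ)) : ℚ) : ℝ) * z ^ n) =
      fun n : ℕ => (sphere relator n : ℝ) * z ^ n := by
    funext n
    rw [PowerSeries.coeff_mk, sphere_eq]
    push_cast
    rfl
  rw [h3] at ht
  refine ⟨?_, ht⟩
  rw [← h3]
  exact hs.of_norm

/-- **Answer to Q1 (negative).**  The growth series of the one-relator group
`⟨x, u | u x⁻¹ u x⁻⁵⟩` for the generating set `{x, u}` is transcendental over `ℚ(z)`, and so is the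
series of the ball sizes; its radius of convergence is `1/2`, and near `1/2` it has a logarithmic
term on top of a rational function. -/
theorem result :
    Transcendental (RatFunc ℚ) ((growthSeries relator : ℚ⟦X⟧) : ℚ⸨X⸩) ∧
    Transcendental (RatFunc ℚ) ((ballSeries relator : ℚ⟦X⟧) : ℚ⸨X⸩) ∧
    (∀ z : ℝ, 0 < z → z < 1 / 2 → Summable fun n : ℕ => (sphere relator n : ℝ) * z ^ n) ∧
    (¬ Summable fun n : ℕ => (sphere relator n : ℝ) * (1 / 2) ^ n) ∧
    ∀ (m : ℕ) (z : ℝ), 12 ≤ m → z = 1 / 2 - (1 / 2) ^ m →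
      m * 2 ^ m / 256 ≤ ∑' n : ℕ, (sphere relator n : ℝ) * z ^ n
        - 2 * z ^ 3 * (1 + z) / ((1 - 2 * z) ^ 2 * (1 - z)) ∧
      ∑' n : ℕ, (sphere relator n : ℝ) * z ^ n
        - 2 * z ^ 3 * (1 + z) / ((1 - 2 * z) ^ 2 * (1 - z)) ≤ 60 * (m * 2 ^ m) := by
  have key : Transcendental (RatFunc ℚ) ((growthSeries relator : ℚ⟦X⟧) : ℚ⸨X⸩) := by
    intro h
    apply GrowthOR.not_alg
    have h1 : growthSeries relator = PowerSeries.mk fun k : ℕ => ((GrowthOR.sph k : ℕ) : ℚ) := by
      unfold growthSeries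
      congr 1
      funext n
      rw [sphere_eq]
    rw [← h1]
    exact exists_of_isAlgebraic _ h
  have hest : ∀ (m : ℕ) (z : ℝ), 12 ≤ m → z = 1 / 2 - (1 / 2) ^ m →
      m * 2 ^ m / 256 ≤ ∑' n : ℕ, (sphere relator n : ℝ) * z ^ n
        - 2 * z ^ 3 * (1 + z) / ((1 - 2 * z) ^ 2 * (1 - z)) ∧
      ∑' n : ℕ, (sphere relator n : ℝ) * z ^ n
        - 2 * z ^ 3 * (1 + z) / ((1 - 2 * z) ^ 2 * (1 - z)) ≤ 60 * (m * 2 ^ m) := by
    intro m z hm hz
    have hz' : z = GrowthOR.zk m := hz
    obtain ⟨hfin, h1, h2⟩ := GrowthOR.estimate m hm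
    rw [← hz'] at hfin h1 h2
    have h14 := GrowthOR.quarter_le_zk m (by omega)
    rw [← hz'] at h14
    rw [(summable_of_FF (by linarith) hfin).2]
    exact ⟨h1, h2⟩
  have hsum : ∀ z : ℝ, 0 < z → z < 1 / 2 →
      Summable fun n : ℕ => (sphere relator n : ℝ) * z ^ n := fun z h0 h1 =>
    (summable_of_FF h0 (ne_top_of_le_ne_top ENNReal.ofReal_ne_top (GrowthOR.FF_upper h0 h1))).1
  refine ⟨key, fun h => key (growth_of_ball _ h), hsum, ?_, hest⟩
  intro hS
  obtain ⟨N, hN⟩ := exists_nat_gt (256 * ∑' n : ℕ, (sphere relator n : ℝ) * (1 / 2) ^ n)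
  set m := N + 12 with hm
  have h14 := GrowthOR.quarter_le_zk m (by omega)
  have h12 := GrowthOR.zk_lt m
  set z := GrowthOR.zk m with hz
  obtain ⟨h1, -⟩ := hest m z (by omega) hz
  have h2 : ∑' n : ℕ, (sphere relator n : ℝ) * z ^ n ≤
      ∑' n : ℕ, (sphere relator n : ℝ) * (1 / 2) ^ n := by
    refine (hsum z (by linarith) h12).tsum_le_tsum (fun n => ?_) hS
    have : z ^ n ≤ (1 / 2) ^ n := pow_le_pow_left₀ (by linarith) h12.le n
    exact mul_le_mul_of_nonneg_left this (Nat.cast_nonneg _)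
  have h3 : 0 ≤ 2 * z ^ 3 * (1 + z) / ((1 - 2 * z) ^ 2 * (1 - z)) := by
    have h5 : 0 ≤ 1 - z := by linarith
    have h6 : 0 ≤ z := by linarith
    positivity
  have h4 : (N : ℝ) ≤ (m : ℝ) * 2 ^ m := by
    have h5 : (N : ℝ) ≤ (m : ℝ) := by rw [hm]; push_cast; linarith
    have h6 : (1 : ℝ) ≤ 2 ^ m := one_le_pow₀ (by norm_num)
    have h7 : (0 : ℝ) ≤ (m : ℝ) := Nat.cast_nonneg _
    nlinarith
  linarith

end Pool.Agent.Results.MP_620157_al.TranscendentalGrowth
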